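import Mathlib

/-!
# Average over the background
-/

set_option autoImplicit false

open scoped BigOperators Matrix

namespace SDX

namespace h70

/-- exchange the part of the background on the range of `e` -/
noncomputable def swapBack {n m b : ℕ} (e : Fin m × Fin b ↪ Fin n) :
    ((Fin m × Fin b → Bool) × (Fin n → Bool)) ≃ ((Fin m × Fin b → Bool) × (Fin n → Bool)) where
  toFun p := (p.2 ∘ e, Function.extend e p.1 p.2)
  invFun p := (p.2 ∘ e, Function.extend e p.1 p.2)
  left_inv := by
    rintro ⟨y, z⟩
    refine Prod.ext ?_ ?_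
    · funext j
      exact e.injective.extend_apply _ _ _
    · funext k
      by_cases hk : ∃ j, e j = k
      · obtain ⟨j, rfl⟩ := hk
        change Function.extend e (z ∘ e) _ (e j) = _
        rw [e.injective.extend_apply]
        rfl
      · change Function.extend e (z ∘ e) (Function.extend e y z) k = _
        rw [Function.extend_apply' _ _ _ hk, Function.extend_apply' _ _ _ hk]
  right_inv := by
    rintro ⟨y, z⟩
    refine Prod.ext ?_ ?_
    · funext j
      exact e.injective.extend_apply _ _ _
    · funext k
      by_cases hk : ∃ j, e j = k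
      · obtain ⟨j, rfl⟩ := hk
        change Function.extend e (z ∘ e) _ (e j) = _
        rw [e.injective.extend_apply]
        rfl
      · change Function.extend e (z ∘ e) (Function.extend e y z) k = _
        rw [Function.extend_apply' _ _ _ hk, Function.extend_apply' _ _ _ hk]

lemma sum_back {n m b : ℕ} (e : Fin m × Fin b ↪ Fin n) (F : (Fin n → Bool) → ℝ) :
    ∑ z : Fin n → Bool, ∑ y : Fin m × Fin b → Bool, F (Function.extend e y z)
      = 2 ^ (m * b) * ∑ x, F x := by
  calc ∑ z : Fin n → Bool, ∑ y : Fin m × Fin b → Bool, F (Function.extend e y z)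
      = ∑ y : Fin m × Fin b → Bool, ∑ z : Fin n → Bool, F (Function.extend e y z) :=
        Finset.sum_comm
    _ = ∑ p : (Fin m × Fin b → Bool) × (Fin n → Bool), F (swapBack e p).2 := by
        rw [Fintype.sum_prod_type]
        rfl
    _ = ∑ p : (Fin m × Fin b → Bool) × (Fin n → Bool), F p.2 :=
        Equiv.sum_comp (swapBack e) fun p => F p.2
    _ = 2 ^ (m * b) * ∑ x, F x := by
        rw [Fintype.sum_prod_type]
        simp

end h70

open Classical in
/-- B4: average over the background (file AvgBack.lean) -/
theorem avg_back {n m b : ℕ} (e : Fin m × Fin b ↪ Fin n) (Good : (Fin n → Bool) → Prop) (η : ℝ)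
    (h : η * 2 ^ n ≤ ((Finset.univ : Finset (Fin n → Bool)).filter Good).card) :
    ∃ z : Fin n → Bool, η * 2 ^ (m * b) ≤
      ((Finset.univ : Finset (Fin m × Fin b → Bool)).filter
        fun y => Good (Function.extend e y z)).card := by
  by_contra hcon
  push Not at hcon
  have h1 := h70.sum_back e (fun x => if Good x then (1 : ℝ) else 0)
  have h2 : ∑ z : Fin n → Bool, ∑ y : Fin m × Fin b → Bool,
      (if Good (Function.extend e y z) then (1 : ℝ) else 0)
      < ∑ _z : Fin n → Bool, η * 2 ^ (m * b) := by
    refine Finset.sum_lt_sum_of_nonempty Finset.univ_nonempty fun z _ => ?_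
    have := hcon z
    rw [Finset.sum_boole]
    exact this
  rw [h1, Finset.sum_boole] at h2
  have h3 : ∑ _z : Fin n → Bool, η * (2 : ℝ) ^ (m * b) = 2 ^ (m * b) * (η * 2 ^ n) := by
    simp
    ring
  rw [h3] at h2
  have h4 : (0 : ℝ) < 2 ^ (m * b) := by positivity
  have h5 := lt_of_mul_lt_mul_left h2 h4.le
  linarith

end SDX
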