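import Mathlib
import Pool.Agent.Helper71.SDX.Defs

/-!
# The localiser polynomial

`V i` is the polynomial with `cos θ * V i (cos θ) = cos ((2 i + 1) θ)`; the localiser is
`(V i (s / m) / (2 i + 1)) ^ 2`.
-/

set_option autoImplicit false

open scoped BigOperators Matrix

namespace SDX

namespace h70

open Polynomial

/-- `x * V i x = T (2 i + 1) x` -/
noncomputable def V : ℕ → Polynomial ℝ
  | 0 => 1
  | 1 => 4 * X ^ 2 - 3
  | (n + 2) => (4 * X ^ 2 - 2) * V (n + 1) - V n

lemma V_succ (n : ℕ) : V (n + 2) = (4 * X ^ 2 - 2) * V (n + 1) - V n := by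
  rw [V]

lemma natDegree_V (n : ℕ) : (V n).natDegree ≤ 2 * n ∧ (V (n + 1)).natDegree ≤ 2 * (n + 1) := by
  induction n with
  | zero =>
      constructor
      · simp [V]
      · simp only [V]
        compute_degree
  | succ n ih =>
      refine ⟨ih.2, ?_⟩
      rw [V_succ]
      refine (natDegree_sub_le _ _).trans (max_le ?_ (ih.1.trans (by omega)))
      refine natDegree_mul_le.trans ?_
      have h1 : (4 * X ^ 2 - 2 : Polynomial ℝ).natDegree ≤ 2 := by compute_degree
      have h2 := ih.2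
      omega

lemma V_zero (n : ℕ) : (V n).eval 0 = (-1) ^ n * (2 * n + 1) ∧
    (V (n + 1)).eval 0 = (-1) ^ (n + 1) * (2 * (n + 1 : ℕ) + 1) := by
  induction n with
  | zero => constructor <;> simp [V] <;> norm_num
  | succ n ih =>
      refine ⟨by simpa using ih.2, ?_⟩
      rw [V_succ]
      simp only [eval_sub, eval_mul, eval_pow, eval_X, eval_ofNat, ih.1, ih.2]
      push_cast
      ring

lemma V_cos (n : ℕ) (θ : ℝ) : Real.cos θ * (V n).eval (Real.cos θ) = Real.cos ((2 * n + 1) * θ) ∧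
    Real.cos θ * (V (n + 1)).eval (Real.cos θ) = Real.cos ((2 * (n + 1 : ℕ) + 1) * θ) := by
  induction n with
  | zero =>
      constructor
      · simp [V]
      · have h : ((2 * ((0 + 1 : ℕ) : ℝ) + 1) * θ) = 3 * θ := by push_cast; ring
        rw [h, Real.cos_three_mul]
        simp only [V, eval_sub, eval_mul, eval_pow, eval_X, eval_ofNat]
        ring
  | succ n ih =>
      refine ⟨by simpa using ih.2, ?_⟩
      rw [V_succ]
      simp only [eval_sub, eval_mul, eval_pow, eval_X, eval_ofNat]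
      have e1 := ih.1
      have e2 := ih.2
      have h1 : Real.cos ((2 * (n + 1 + 1 : ℕ) + 1) * θ) + Real.cos ((2 * n + 1) * θ)
          = 2 * Real.cos (2 * θ) * Real.cos ((2 * (n + 1 : ℕ) + 1) * θ) := by
        rw [Real.cos_add_cos]
        push_cast
        have a1 : (((2 * ((n : ℝ) + 1 + 1) + 1) * θ + (2 * n + 1) * θ) / 2)
            = (2 * ((n : ℝ) + 1) + 1) * θ := by ring
        have a2 : (((2 * ((n : ℝ) + 1 + 1) + 1) * θ - (2 * n + 1) * θ) / 2) = 2 * θ := by ring
        rw [a1, a2]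
        ring
      rw [Real.cos_two_mul] at h1
      linear_combination (4 * Real.cos θ ^ 2 - 2) * e2 - e1 + h1.symm

lemma abs_cos_odd (n : ℕ) (θ : ℝ) : |Real.cos ((2 * n + 1) * θ)| ≤ (2 * n + 1) * |Real.cos θ| := by
  induction n with
  | zero => simp
  | succ n ih =>
      have h : ((2 * ((n + 1 : ℕ) : ℝ) + 1) * θ) = (2 * n + 1) * θ + 2 * θ := by push_cast; ring
      rw [h, Real.cos_add, Real.sin_two_mul]
      have h1 : |Real.cos ((2 * n + 1) * θ) * Real.cos (2 * θ)| ≤ |Real.cos ((2 * n + 1) * θ)| := by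
        rw [abs_mul]
        exact mul_le_of_le_one_right (abs_nonneg _) (Real.abs_cos_le_one _)
      have h2 : |Real.sin ((2 * n + 1) * θ) * (2 * Real.sin θ * Real.cos θ)| ≤ 2 * |Real.cos θ| := by
        rw [abs_mul, abs_mul, abs_mul, abs_two]
        have a1 := Real.abs_sin_le_one ((2 * n + 1) * θ)
        have a2 := Real.abs_sin_le_one θ
        have a3 := abs_nonneg (Real.cos θ)
        have a4 := abs_nonneg (Real.sin θ)
        have a5 := abs_nonneg (Real.sin ((2 * n + 1) * θ))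
        calc |Real.sin ((2 * n + 1) * θ)| * (2 * |Real.sin θ| * |Real.cos θ|)
            ≤ 1 * (2 * 1 * |Real.cos θ|) := by gcongr
          _ = 2 * |Real.cos θ| := by ring
      have h3 := abs_sub (Real.cos ((2 * n + 1) * θ) * Real.cos (2 * θ))
        (Real.sin ((2 * n + 1) * θ) * (2 * Real.sin θ * Real.cos θ))
      push_cast
      linarith

lemma V_bound (n : ℕ) {x : ℝ} (h1 : -1 ≤ x) (h2 : x ≤ 1) :
    |(V n).eval x| ≤ 2 * n + 1 ∧ |x| * |(V n).eval x| ≤ 1 := by
  have hx : Real.cos (Real.arccos x) = x := Real.cos_arccos h1 h2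
  have e := (V_cos n (Real.arccos x)).1
  rw [hx] at e
  constructor
  · rcases eq_or_ne x 0 with rfl | h0
    · rw [(V_zero n).1, abs_mul, abs_pow, abs_neg, abs_one, one_pow, one_mul]
      exact le_of_eq (abs_of_nonneg (by positivity))
    · have h3 := abs_cos_odd n (Real.arccos x)
      rw [← e, hx, abs_mul] at h3
      have h4 : 0 < |x| := abs_pos.2 h0
      nlinarith [h3, h4, mul_comm |x| |(V n).eval x|, abs_nonneg ((V n).eval x)]
  · rw [← abs_mul, e]
    exact Real.abs_cos_le_one _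

/-- the middle binomial coefficient -/
lemma choose_mid (k : ℕ) : ((2 * k + 1).choose k) ^ 2 * (2 * k + 3) ≤ 4 ^ (2 * k + 1) := by
  induction k with
  | zero => norm_num
  | succ k ih =>
      have h1 : (k + 2) * (2 * k + 3).choose (k + 1) = 2 * (2 * k + 3) * (2 * k + 1).choose k := by
        have a1 : (k + 1) * (2 * k + 3).choose (k + 1) = (2 * k + 3) * (2 * k + 2).choose k := by
          have := Nat.add_one_mul_choose_eq (2 * k + 2) k
          linarith
        have a2 : (k + 2) * (2 * k + 2).choose k = (2 * k + 2) * (2 * k + 1).choose k := by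
          have := Nat.choose_mul_succ_eq (2 * k + 1) k
          have h3 : 2 * k + 1 + 1 - k = k + 2 := by omega
          rw [h3] at this
          nlinarith [this]
        have h5 : (k + 1) * ((k + 2) * (2 * k + 3).choose (k + 1))
            = (k + 1) * (2 * (2 * k + 3) * (2 * k + 1).choose k) := by
          calc (k + 1) * ((k + 2) * (2 * k + 3).choose (k + 1))
              = (k + 2) * ((k + 1) * (2 * k + 3).choose (k + 1)) := by ring
            _ = (2 * k + 3) * ((k + 2) * (2 * k + 2).choose k) := by rw [a1]; ring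
            _ = _ := by rw [a2]; ring
        exact Nat.eq_of_mul_eq_mul_left (Nat.succ_pos k) h5
      have h2 : 2 * (k + 1) + 1 = 2 * k + 3 := by ring
      have h3 : 2 * (k + 1) + 3 = 2 * k + 5 := by ring
      rw [h2, h3]
      set c' := (2 * k + 3).choose (k + 1)
      set c := (2 * k + 1).choose k
      have h4 : (k + 2) ^ 2 * (c' ^ 2 * (2 * k + 5)) ≤ (k + 2) ^ 2 * 4 ^ (2 * k + 3) := by
        calc (k + 2) ^ 2 * (c' ^ 2 * (2 * k + 5)) = ((k + 2) * c') ^ 2 * (2 * k + 5) := by ring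
          _ = (4 * (2 * k + 3) * (2 * k + 5)) * (c ^ 2 * (2 * k + 3)) := by rw [h1]; ring
          _ ≤ (4 * (2 * k + 3) * (2 * k + 5)) * 4 ^ (2 * k + 1) := Nat.mul_le_mul_left _ ih
          _ ≤ (16 * (k + 2) ^ 2) * 4 ^ (2 * k + 1) := by
              refine Nat.mul_le_mul_right _ ?_
              nlinarith
          _ = (k + 2) ^ 2 * 4 ^ (2 * k + 3) := by ring
      exact Nat.le_of_mul_le_mul_left h4 (by positivity)

lemma choose_le (k j : ℕ) :
    ((2 * k + 1).choose j : ℝ) ≤ 2 ^ (2 * k + 1) / Real.sqrt ((2 * k + 1 : ℕ) : ℝ) := by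
  have h0 : (0 : ℝ) < ((2 * k + 1 : ℕ) : ℝ) := by positivity
  have h1 : (2 * k + 1).choose j ≤ (2 * k + 1).choose k := by
    have := Nat.choose_le_middle j (2 * k + 1)
    have h2 : (2 * k + 1) / 2 = k := by omega
    rwa [h2] at this
  have h3 : ((2 * k + 1).choose j : ℝ) ≤ ((2 * k + 1).choose k : ℝ) := by exact_mod_cast h1
  refine h3.trans ?_
  rw [le_div_iff₀ (Real.sqrt_pos.2 h0)]
  refine le_of_sq_le_sq ?_ (by positivity)
  rw [mul_pow, Real.sq_sqrt h0.le]
  have h4 := choose_mid k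
  have h5 : (((2 * k + 1).choose k : ℝ)) ^ 2 * (2 * k + 3) ≤ 4 ^ (2 * k + 1) := by
    exact_mod_cast h4
  have h6 : ((2 : ℝ) ^ (2 * k + 1)) ^ 2 = 4 ^ (2 * k + 1) := by
    rw [← pow_mul, mul_comm, pow_mul]
    norm_num
  rw [h6]
  push_cast
  nlinarith [sq_nonneg (((2 * k + 1).choose k : ℝ))]

lemma ssum_eq {m : ℕ} (y : Fin m → Bool) :
    ssum y = (m : ℝ) - 2 * ((Finset.univ.filter fun i => y i = true).card : ℝ) := by
  unfold ssum
  have h : ∀ i, sg (y i) = 1 - 2 * (if y i = true then (1 : ℝ) else 0) := by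
    intro i
    cases y i <;> simp [sg] <;> norm_num
  simp only [h]
  rw [Finset.sum_sub_distrib, ← Finset.mul_sum, Finset.sum_boole]
  simp

lemma sum_ssum {m : ℕ} (f : ℝ → ℝ) : ∑ y : Fin m → Bool, f (ssum y)
    = ∑ k ∈ Finset.range (m + 1), (m.choose k : ℝ) * f ((m : ℝ) - 2 * k) := by
  have h1 : ∑ y : Fin m → Bool, f (ssum y)
      = ∑ s ∈ (Finset.univ : Finset (Fin m)).powerset, f ((m : ℝ) - 2 * (s.card : ℝ)) := by
    refine Finset.sum_nbij' (fun y => Finset.univ.filter fun i => y i = true)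
      (fun s i => decide (i ∈ s)) ?_ ?_ ?_ ?_ ?_
    · intro y _
      simp
    · intro s _
      simp
    · intro y _
      funext i
      simp
    · intro s _
      ext i
      simp
    · intro y _
      rw [ssum_eq]
  rw [h1, Finset.sum_powerset_apply_card (fun k => f ((m : ℝ) - 2 * (k : ℝ)))]
  simp [nsmul_eq_mul]

lemma abs_ssum_le {m : ℕ} (y : Fin m → Bool) : |ssum y| ≤ m := by
  unfold ssum
  refine (Finset.abs_sum_le_sum_abs _ _).trans ?_
  have h : ∀ i, |sg (y i)| = 1 := by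
    intro i
    cases y i <;> simp [sg]
  simp [h]

end h70

open h70

theorem exists_local (m i : ℕ) (hm : Odd m) (hmi : 2 * i + 1 ≤ m) :
    ∃ p : Polynomial ℝ, p.natDegree ≤ 4 * i ∧ p.eval 0 = 1 ∧
      (∀ y : Fin m → Bool, |p.eval (ssum y)| ≤ 1) ∧
      ∑ y : Fin m → Bool, ssum y ^ 2 * p.eval (ssum y) ^ 2
        ≤ 2 ^ m * (16 * ((m : ℝ) / (2 * i + 1)) ^ 3 / Real.sqrt m) := by
  obtain ⟨n, rfl⟩ := hm
  set m : ℕ := 2 * n + 1 with hmdef
  have hm0 : (0 : ℝ) < (m : ℝ) := by
    have : 0 < m := by omega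
    exact_mod_cast this
  set L : ℝ := (m : ℝ) / (2 * i + 1) with hL
  have hL0 : 0 < L := by positivity
  set q : Polynomial ℝ := (V i).comp (Polynomial.C (m : ℝ)⁻¹ * Polynomial.X) with hq
  set p : Polynomial ℝ := (Polynomial.C ((2 * (i : ℝ) + 1)⁻¹) * q) ^ 2 with hp
  have hev : ∀ s : ℝ, p.eval s = ((V i).eval (s / m) / (2 * i + 1)) ^ 2 := by
    intro s
    rw [hp, hq]
    simp only [Polynomial.eval_pow, Polynomial.eval_mul, Polynomial.eval_C, Polynomial.eval_comp,
      Polynomial.eval_X]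
    congr 1
    rw [div_eq_inv_mul, div_eq_inv_mul]
  -- the bound
  have hbd : ∀ s : ℝ, |s| ≤ m → |(V i).eval (s / m) / (2 * i + 1)| ≤ 1 ∧
      |s| * |(V i).eval (s / m) / (2 * i + 1)| ≤ L := by
    intro s hs
    have hs' := abs_le.1 hs
    have hx := V_bound i (x := s / m) (by rw [le_div_iff₀ hm0]; linarith [hs'.1])
      (by rw [div_le_one hm0]; exact hs'.2)
    have hi0 : (0 : ℝ) < 2 * i + 1 := by positivity
    constructor
    · rw [abs_div, abs_of_pos hi0, div_le_one hi0]
      exact hx.1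
    · rw [abs_div, abs_of_pos hi0, hL, ← mul_div_assoc]
      refine div_le_div_of_nonneg_right ?_ hi0.le
      have h2 := hx.2
      rw [abs_div, abs_of_pos hm0, div_mul_eq_mul_div, div_le_one hm0] at h2
      exact h2
  refine ⟨p, ?_, ?_, ?_, ?_⟩
  · rw [hp]
    refine Polynomial.natDegree_pow_le.trans ?_
    have h1 : (Polynomial.C ((2 * (i : ℝ) + 1)⁻¹) * q).natDegree ≤ 2 * i := by
      refine (Polynomial.natDegree_C_mul_le _ _).trans ?_
      rw [hq]
      refine Polynomial.natDegree_comp_le.trans ?_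
      have h2 : (Polynomial.C (m : ℝ)⁻¹ * Polynomial.X).natDegree ≤ 1 := by
        refine (Polynomial.natDegree_C_mul_le _ _).trans ?_
        exact Polynomial.natDegree_X_le
      have h3 := (natDegree_V i).1
      nlinarith
    omega
  · rw [hev, zero_div, (V_zero i).1]
    have : (2 * (i : ℝ) + 1) ≠ 0 := by positivity
    field_simp
    rw [← pow_mul, mul_comm i 2, pow_mul]
    norm_num
  · intro y
    rw [hev, abs_pow]
    exact pow_le_one₀ (abs_nonneg _) (hbd _ (abs_ssum_le y)).1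
  · -- the sum
    set f : ℝ → ℝ := fun s => s ^ 2 * p.eval s ^ 2 with hf
    have hf0 : ∀ s, 0 ≤ f s := fun s => by rw [hf]; positivity
    have hfb : ∀ (s : ℝ) (j : ℕ), |s| = 2 * j + 1 → |s| ≤ m →
        f s ≤ 2 * L ^ 4 * (1 / (L + 2 * j) - 1 / (L + 2 * (j + 1))) := by
      intro s j hsj hsm
      obtain ⟨h1, h2⟩ := hbd s hsm
      set v := |(V i).eval (s / m) / (2 * i + 1)| with hv
      have hv0 : 0 ≤ v := abs_nonneg _
      have hs0 : 0 ≤ |s| := abs_nonneg _
      have e1 : f s = (|s| * v ^ 2) ^ 2 := by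
        rw [hf]
        simp only
        rw [hev, hv, mul_pow, sq_abs, sq_abs]
      have e2 : |s| * v ^ 2 * (L + |s|) ≤ 2 * L ^ 2 := by
        have a1 : |s| * v ^ 2 * L ≤ L ^ 2 := by
          calc |s| * v ^ 2 * L = (|s| * v) * v * L := by ring
            _ ≤ L * 1 * L := by gcongr
            _ = L ^ 2 := by ring
        have a2 : |s| * v ^ 2 * |s| ≤ L ^ 2 := by
          calc |s| * v ^ 2 * |s| = (|s| * v) ^ 2 := by ring
            _ ≤ L ^ 2 := by gcongr
        linarith
      have hLs : 0 < L + |s| := by positivity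
      have e3 : |s| * v ^ 2 ≤ 2 * L ^ 2 / (L + |s|) := by
        rw [le_div_iff₀ hLs]; exact e2
      have e4 : f s ≤ (2 * L ^ 2 / (L + |s|)) ^ 2 := by
        rw [e1]
        exact pow_le_pow_left₀ (by positivity) e3 2
      refine e4.trans ?_
      rw [hsj]
      have hj1 : 0 < L + 2 * (j : ℝ) := by positivity
      have hj2 : 0 < L + 2 * ((j : ℝ) + 1) := by positivity
      have hj3 : 0 < L + (2 * (j : ℝ) + 1) := by positivity
      have e5 : 2 * L ^ 4 * (1 / (L + 2 * (j : ℝ)) - 1 / (L + 2 * ((j : ℝ) + 1)))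
          = 4 * L ^ 4 / ((L + 2 * j) * (L + 2 * (j + 1))) := by
        field_simp
        ring
      rw [e5, div_pow, div_le_div_iff₀ (by positivity) (by positivity)]
      have e6 : (L + 2 * (j : ℝ)) * (L + 2 * (j + 1)) ≤ (L + (2 * j + 1)) ^ 2 := by nlinarith
      have e7 : 0 ≤ 4 * L ^ 4 := by positivity
      calc (2 * L ^ 2) ^ 2 * ((L + 2 * (j : ℝ)) * (L + 2 * (j + 1)))
          = 4 * L ^ 4 * ((L + 2 * (j : ℝ)) * (L + 2 * (j + 1))) := by ring
        _ ≤ 4 * L ^ 4 * (L + (2 * j + 1)) ^ 2 := mul_le_mul_of_nonneg_left e6 e7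
    have htel : ∑ j ∈ Finset.range (n + 1),
        2 * L ^ 4 * (1 / (L + 2 * (j : ℝ)) - 1 / (L + 2 * ((j : ℝ) + 1))) ≤ 2 * L ^ 3 := by
      rw [← Finset.mul_sum]
      have h1 : ∑ j ∈ Finset.range (n + 1),
          (1 / (L + 2 * (j : ℝ)) - 1 / (L + 2 * ((j : ℝ) + 1)))
          = 1 / L - 1 / (L + 2 * ((n + 1 : ℕ) : ℝ)) := by
        have := Finset.sum_range_sub' (fun j : ℕ => 1 / (L + 2 * (j : ℝ))) (n + 1)
        simpa using this
      rw [h1]
      have h2 : 0 ≤ 1 / (L + 2 * ((n + 1 : ℕ) : ℝ)) := by positivity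
      calc 2 * L ^ 4 * (1 / L - 1 / (L + 2 * ((n + 1 : ℕ) : ℝ))) ≤ 2 * L ^ 4 * (1 / L) := by
            gcongr
            linarith
        _ = 2 * L ^ 3 := by field_simp
    have hsum : ∑ y : Fin m → Bool, ssum y ^ 2 * p.eval (ssum y) ^ 2
        = ∑ k ∈ Finset.range (m + 1), (m.choose k : ℝ) * f ((m : ℝ) - 2 * k) :=
      sum_ssum f
    have hhalf : ∑ k ∈ Finset.range (m + 1), f ((m : ℝ) - 2 * k) ≤ 4 * L ^ 3 := by
      have h1 : m + 1 = (n + 1) + (n + 1) := by omega
      rw [h1, Finset.sum_range_add]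
      have h2 : ∑ k ∈ Finset.range (n + 1), f ((m : ℝ) - 2 * (k : ℝ)) ≤ 2 * L ^ 3 := by
        rw [← Finset.sum_range_reflect]
        refine le_trans (Finset.sum_le_sum fun j hj => ?_) htel
        have hj' : j ≤ n := by
          have := Finset.mem_range.1 hj
          omega
        have e : ((m : ℝ) - 2 * ((n + 1 - 1 - j : ℕ) : ℝ)) = 2 * j + 1 := by
          have : n + 1 - 1 - j = n - j := by omega
          rw [this, Nat.cast_sub hj', hmdef]
          push_cast
          ring
        refine hfb _ j ?_ ?_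
        · rw [e]
          exact abs_of_nonneg (by positivity)
        · rw [e, abs_of_nonneg (by positivity), hmdef]
          have : (j : ℝ) ≤ n := by exact_mod_cast hj'
          push_cast
          linarith
      have h3 : ∑ k ∈ Finset.range (n + 1), f ((m : ℝ) - 2 * ((n + 1 + k : ℕ) : ℝ)) ≤ 2 * L ^ 3 := by
        refine le_trans (Finset.sum_le_sum fun j hj => ?_) htel
        have hj' : j ≤ n := by
          have := Finset.mem_range.1 hj
          omega
        have e : ((m : ℝ) - 2 * ((n + 1 + j : ℕ) : ℝ)) = -(2 * j + 1) := by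
          rw [hmdef]
          push_cast
          ring
        refine hfb _ j ?_ ?_
        · rw [e, abs_neg]
          exact abs_of_nonneg (by positivity)
        · rw [e, abs_neg, abs_of_nonneg (by positivity), hmdef]
          have : (j : ℝ) ≤ n := by exact_mod_cast hj'
          push_cast
          linarith
      linarith
    rw [hsum]
    have hC : ∀ k, (m.choose k : ℝ) ≤ 2 ^ m / Real.sqrt (m : ℝ) := fun k => choose_le n k
    calc ∑ k ∈ Finset.range (m + 1), (m.choose k : ℝ) * f ((m : ℝ) - 2 * k)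
        ≤ ∑ k ∈ Finset.range (m + 1), (2 ^ m / Real.sqrt (m : ℝ)) * f ((m : ℝ) - 2 * k) :=
          Finset.sum_le_sum fun k _ => mul_le_mul_of_nonneg_right (hC k) (hf0 _)
      _ = (2 ^ m / Real.sqrt (m : ℝ)) * ∑ k ∈ Finset.range (m + 1), f ((m : ℝ) - 2 * k) := by
          rw [Finset.mul_sum]
      _ ≤ (2 ^ m / Real.sqrt (m : ℝ)) * (4 * L ^ 3) :=
          mul_le_mul_of_nonneg_left hhalf (by positivity)
      _ ≤ 2 ^ m * (16 * L ^ 3 / Real.sqrt m) := by
          have : 0 ≤ 2 ^ m * L ^ 3 / Real.sqrt (m : ℝ) := by positivity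
          calc (2 ^ m / Real.sqrt (m : ℝ)) * (4 * L ^ 3)
              = 4 * (2 ^ m * L ^ 3 / Real.sqrt (m : ℝ)) := by ring
            _ ≤ 16 * (2 ^ m * L ^ 3 / Real.sqrt (m : ℝ)) := by linarith
            _ = 2 ^ m * (16 * L ^ 3 / Real.sqrt m) := by ring

end SDX
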