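import Mathlib
import Pool.Agent.Helper71.SDX.Defs
import Pool.Agent.Helper70.SDX.Local

/-!
# The localiser polynomial with a pointwise bound
-/

set_option autoImplicit false

open scoped BigOperators Matrix

namespace SDX

open h70

theorem exists_local3 (m i : ℕ) (hm : Odd m) (hmi : 2 * i + 1 ≤ m) :
    ∃ p : Polynomial ℝ, p.natDegree ≤ 4 * i ∧ p.eval 0 = 1 ∧
      (∀ y : Fin m → Bool, |p.eval (ssum y)| ≤ 1) ∧
      (∀ y : Fin m → Bool, ssum y ^ 2 * p.eval (ssum y) ^ 2 ≤ ((m : ℝ) / (2 * i + 1)) ^ 2) ∧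
      ∑ y : Fin m → Bool, ssum y ^ 2 * p.eval (ssum y) ^ 2
        ≤ 2 ^ m * (16 * ((m : ℝ) / (2 * i + 1)) ^ 3 / Real.sqrt m) := by
  obtain ⟨n, rfl⟩ := hm
  set m : ℕ := 2 * n + 1 with hmdef
  have hm0 : (0 : ℝ) < (m : ℝ) := by
    have : 0 < m := by omega
    exact_mod_cast this
  set L : ℝ := (m : ℝ) / (2 * i + 1) with hL
  have hL0 : 0 < L := by positivity
  set q : Polynomial ℝ := (V i).comp (Polynomial.C (m : ℝ)⁻¹ * Polynomial.X) with hq
  set p : Polynomial ℝ := (Polynomial.C ((2 * (i : ℝ) + 1)⁻¹) * q) ^ 2 with hp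
  have hev : ∀ s : ℝ, p.eval s = ((V i).eval (s / m) / (2 * i + 1)) ^ 2 := by
    intro s
    rw [hp, hq]
    simp only [Polynomial.eval_pow, Polynomial.eval_mul, Polynomial.eval_C, Polynomial.eval_comp,
      Polynomial.eval_X]
    congr 1
    rw [div_eq_inv_mul, div_eq_inv_mul]
  -- the bound
  have hbd : ∀ s : ℝ, |s| ≤ m → |(V i).eval (s / m) / (2 * i + 1)| ≤ 1 ∧
      |s| * |(V i).eval (s / m) / (2 * i + 1)| ≤ L := by
    intro s hs
    have hs' := abs_le.1 hs
    have hx := V_bound i (x := s / m) (by rw [le_div_iff₀ hm0]; linarith [hs'.1])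
      (by rw [div_le_one hm0]; exact hs'.2)
    have hi0 : (0 : ℝ) < 2 * i + 1 := by positivity
    constructor
    · rw [abs_div, abs_of_pos hi0, div_le_one hi0]
      exact hx.1
    · rw [abs_div, abs_of_pos hi0, hL, ← mul_div_assoc]
      refine div_le_div_of_nonneg_right ?_ hi0.le
      have h2 := hx.2
      rw [abs_div, abs_of_pos hm0, div_mul_eq_mul_div, div_le_one hm0] at h2
      exact h2
  refine ⟨p, ?_, ?_, ?_, ?_, ?_⟩
  · rw [hp]
    refine Polynomial.natDegree_pow_le.trans ?_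
    have h1 : (Polynomial.C ((2 * (i : ℝ) + 1)⁻¹) * q).natDegree ≤ 2 * i := by
      refine (Polynomial.natDegree_C_mul_le _ _).trans ?_
      rw [hq]
      refine Polynomial.natDegree_comp_le.trans ?_
      have h2 : (Polynomial.C (m : ℝ)⁻¹ * Polynomial.X).natDegree ≤ 1 := by
        refine (Polynomial.natDegree_C_mul_le _ _).trans ?_
        exact Polynomial.natDegree_X_le
      have h3 := (natDegree_V i).1
      nlinarith
    omega
  · rw [hev, zero_div, (V_zero i).1]
    have : (2 * (i : ℝ) + 1) ≠ 0 := by positivity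
    field_simp
    rw [← pow_mul, mul_comm i 2, pow_mul]
    norm_num
  · intro y
    rw [hev, abs_pow]
    exact pow_le_one₀ (abs_nonneg _) (hbd _ (abs_ssum_le y)).1
  · intro y
    obtain ⟨h1, h2⟩ := hbd _ (abs_ssum_le y)
    rw [hev]
    set v := |(V i).eval (ssum y / m) / (2 * i + 1)| with hv
    have hv0 : 0 ≤ v := abs_nonneg _
    have e1 : ssum y ^ 2 * (((V i).eval (ssum y / m) / (2 * i + 1)) ^ 2) ^ 2
        = (|ssum y| * v * v) ^ 2 := by
      rw [← sq_abs (ssum y), ← sq_abs ((V i).eval (ssum y / m) / (2 * i + 1)), ← hv]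
      ring
    rw [e1]
    refine pow_le_pow_left₀ (by positivity) ?_ 2
    calc |ssum y| * v * v ≤ L * 1 := by gcongr
      _ = L := mul_one _
  · -- the sum
    set f : ℝ → ℝ := fun s => s ^ 2 * p.eval s ^ 2 with hf
    have hf0 : ∀ s, 0 ≤ f s := fun s => by rw [hf]; positivity
    have hfb : ∀ (s : ℝ) (j : ℕ), |s| = 2 * j + 1 → |s| ≤ m →
        f s ≤ 2 * L ^ 4 * (1 / (L + 2 * j) - 1 / (L + 2 * (j + 1))) := by
      intro s j hsj hsm
      obtain ⟨h1, h2⟩ := hbd s hsm
      set v := |(V i).eval (s / m) / (2 * i + 1)| with hv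
      have hv0 : 0 ≤ v := abs_nonneg _
      have hs0 : 0 ≤ |s| := abs_nonneg _
      have e1 : f s = (|s| * v ^ 2) ^ 2 := by
        rw [hf]
        simp only
        rw [hev, hv, mul_pow, sq_abs, sq_abs]
      have e2 : |s| * v ^ 2 * (L + |s|) ≤ 2 * L ^ 2 := by
        have a1 : |s| * v ^ 2 * L ≤ L ^ 2 := by
          calc |s| * v ^ 2 * L = (|s| * v) * v * L := by ring
            _ ≤ L * 1 * L := by gcongr
            _ = L ^ 2 := by ring
        have a2 : |s| * v ^ 2 * |s| ≤ L ^ 2 := by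
          calc |s| * v ^ 2 * |s| = (|s| * v) ^ 2 := by ring
            _ ≤ L ^ 2 := by gcongr
        linarith
      have hLs : 0 < L + |s| := by positivity
      have e3 : |s| * v ^ 2 ≤ 2 * L ^ 2 / (L + |s|) := by
        rw [le_div_iff₀ hLs]; exact e2
      have e4 : f s ≤ (2 * L ^ 2 / (L + |s|)) ^ 2 := by
        rw [e1]
        exact pow_le_pow_left₀ (by positivity) e3 2
      refine e4.trans ?_
      rw [hsj]
      have hj1 : 0 < L + 2 * (j : ℝ) := by positivity
      have hj2 : 0 < L + 2 * ((j : ℝ) + 1) := by positivity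
      have hj3 : 0 < L + (2 * (j : ℝ) + 1) := by positivity
      have e5 : 2 * L ^ 4 * (1 / (L + 2 * (j : ℝ)) - 1 / (L + 2 * ((j : ℝ) + 1)))
          = 4 * L ^ 4 / ((L + 2 * j) * (L + 2 * (j + 1))) := by
        field_simp
        ring
      rw [e5, div_pow, div_le_div_iff₀ (by positivity) (by positivity)]
      have e6 : (L + 2 * (j : ℝ)) * (L + 2 * (j + 1)) ≤ (L + (2 * j + 1)) ^ 2 := by nlinarith
      have e7 : 0 ≤ 4 * L ^ 4 := by positivity
      calc (2 * L ^ 2) ^ 2 * ((L + 2 * (j : ℝ)) * (L + 2 * (j + 1)))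
          = 4 * L ^ 4 * ((L + 2 * (j : ℝ)) * (L + 2 * (j + 1))) := by ring
        _ ≤ 4 * L ^ 4 * (L + (2 * j + 1)) ^ 2 := mul_le_mul_of_nonneg_left e6 e7
    have htel : ∑ j ∈ Finset.range (n + 1),
        2 * L ^ 4 * (1 / (L + 2 * (j : ℝ)) - 1 / (L + 2 * ((j : ℝ) + 1))) ≤ 2 * L ^ 3 := by
      rw [← Finset.mul_sum]
      have h1 : ∑ j ∈ Finset.range (n + 1),
          (1 / (L + 2 * (j : ℝ)) - 1 / (L + 2 * ((j : ℝ) + 1)))
          = 1 / L - 1 / (L + 2 * ((n + 1 : ℕ) : ℝ)) := by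
        have := Finset.sum_range_sub' (fun j : ℕ => 1 / (L + 2 * (j : ℝ))) (n + 1)
        simpa using this
      rw [h1]
      have h2 : 0 ≤ 1 / (L + 2 * ((n + 1 : ℕ) : ℝ)) := by positivity
      calc 2 * L ^ 4 * (1 / L - 1 / (L + 2 * ((n + 1 : ℕ) : ℝ))) ≤ 2 * L ^ 4 * (1 / L) := by
            gcongr
            linarith
        _ = 2 * L ^ 3 := by field_simp
    have hsum : ∑ y : Fin m → Bool, ssum y ^ 2 * p.eval (ssum y) ^ 2
        = ∑ k ∈ Finset.range (m + 1), (m.choose k : ℝ) * f ((m : ℝ) - 2 * k) :=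
      sum_ssum f
    have hhalf : ∑ k ∈ Finset.range (m + 1), f ((m : ℝ) - 2 * k) ≤ 4 * L ^ 3 := by
      have h1 : m + 1 = (n + 1) + (n + 1) := by omega
      rw [h1, Finset.sum_range_add]
      have h2 : ∑ k ∈ Finset.range (n + 1), f ((m : ℝ) - 2 * (k : ℝ)) ≤ 2 * L ^ 3 := by
        rw [← Finset.sum_range_reflect]
        refine le_trans (Finset.sum_le_sum fun j hj => ?_) htel
        have hj' : j ≤ n := by
          have := Finset.mem_range.1 hj
          omega
        have e : ((m : ℝ) - 2 * ((n + 1 - 1 - j : ℕ) : ℝ)) = 2 * j + 1 := by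
          have : n + 1 - 1 - j = n - j := by omega
          rw [this, Nat.cast_sub hj', hmdef]
          push_cast
          ring
        refine hfb _ j ?_ ?_
        · rw [e]
          exact abs_of_nonneg (by positivity)
        · rw [e, abs_of_nonneg (by positivity), hmdef]
          have : (j : ℝ) ≤ n := by exact_mod_cast hj'
          push_cast
          linarith
      have h3 : ∑ k ∈ Finset.range (n + 1), f ((m : ℝ) - 2 * ((n + 1 + k : ℕ) : ℝ)) ≤ 2 * L ^ 3 := by
        refine le_trans (Finset.sum_le_sum fun j hj => ?_) htel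
        have hj' : j ≤ n := by
          have := Finset.mem_range.1 hj
          omega
        have e : ((m : ℝ) - 2 * ((n + 1 + j : ℕ) : ℝ)) = -(2 * j + 1) := by
          rw [hmdef]
          push_cast
          ring
        refine hfb _ j ?_ ?_
        · rw [e, abs_neg]
          exact abs_of_nonneg (by positivity)
        · rw [e, abs_neg, abs_of_nonneg (by positivity), hmdef]
          have : (j : ℝ) ≤ n := by exact_mod_cast hj'
          push_cast
          linarith
      linarith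
    rw [hsum]
    have hC : ∀ k, (m.choose k : ℝ) ≤ 2 ^ m / Real.sqrt (m : ℝ) := fun k => choose_le n k
    calc ∑ k ∈ Finset.range (m + 1), (m.choose k : ℝ) * f ((m : ℝ) - 2 * k)
        ≤ ∑ k ∈ Finset.range (m + 1), (2 ^ m / Real.sqrt (m : ℝ)) * f ((m : ℝ) - 2 * k) :=
          Finset.sum_le_sum fun k _ => mul_le_mul_of_nonneg_right (hC k) (hf0 _)
      _ = (2 ^ m / Real.sqrt (m : ℝ)) * ∑ k ∈ Finset.range (m + 1), f ((m : ℝ) - 2 * k) := by
          rw [Finset.mul_sum]
      _ ≤ (2 ^ m / Real.sqrt (m : ℝ)) * (4 * L ^ 3) :=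
          mul_le_mul_of_nonneg_left hhalf (by positivity)
      _ ≤ 2 ^ m * (16 * L ^ 3 / Real.sqrt m) := by
          have : 0 ≤ 2 ^ m * L ^ 3 / Real.sqrt (m : ℝ) := by positivity
          calc (2 ^ m / Real.sqrt (m : ℝ)) * (4 * L ^ 3)
              = 4 * (2 ^ m * L ^ 3 / Real.sqrt (m : ℝ)) := by ring
            _ ≤ 16 * (2 ^ m * L ^ 3 / Real.sqrt (m : ℝ)) := by linarith
            _ = 2 ^ m * (16 * L ^ 3 / Real.sqrt m) := by ring

end SDX
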