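import Mathlib

/-!
# The numbers of the log-free version
-/

set_option autoImplicit false

open scoped BigOperators

namespace SDX

namespace h70

lemma choose_le_exp (N k : ℕ) (hk : 0 < k) :
    (N.choose k : ℝ) ≤ (Real.exp 1 * ((N : ℝ) / k)) ^ k := by
  have hk' : (0 : ℝ) < k := by exact_mod_cast hk
  have h1 : (N.choose k : ℝ) ≤ (N : ℝ) ^ k / (k.factorial : ℝ) := Nat.choose_le_pow_div k N
  have h2 : (k : ℝ) ^ k / (k.factorial : ℝ) ≤ Real.exp k :=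
    Real.pow_div_factorial_le_exp (k : ℝ) hk'.le k
  have h3 : (N : ℝ) ^ k / (k.factorial : ℝ) = ((N : ℝ) / k) ^ k * ((k : ℝ) ^ k / (k.factorial : ℝ)) := by
    rw [div_pow]
    field_simp
  have h4 : Real.exp (k : ℝ) = Real.exp 1 ^ k := by
    rw [← Real.exp_nat_mul, mul_one]
  calc (N.choose k : ℝ) ≤ ((N : ℝ) / k) ^ k * ((k : ℝ) ^ k / (k.factorial : ℝ)) := h3 ▸ h1
    _ ≤ ((N : ℝ) / k) ^ k * Real.exp 1 ^ k := by
        rw [← h4]
        exact mul_le_mul_of_nonneg_left h2 (by positivity)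
    _ = (Real.exp 1 * ((N : ℝ) / k)) ^ k := by rw [mul_pow]; ring

end h70

open h70

theorem numbers2 (c₀ : ℝ) (hc₀ : 0 < c₀) (hc₁ : c₀ ≤ 1) :
    ∃ c > 0, ∃ n₀ : ℕ, ∀ n : ℕ, n₀ ≤ n → ∃ m b t i K : ℕ, Odd m ∧ 0 < b ∧ m * b ≤ n ∧
      4 * t ≤ m ∧ 4 * i ≤ t ∧ 8 * i + 2 ≤ m ∧ ∀ r : ℕ, 0 < r →
        (r : ℝ) ≤ Real.exp (c * Real.sqrt n) + 1 →
        Real.sqrt (640 * ((m : ℝ) / (2 * i + 1)) ^ 3 / c₀)
          * Real.log (10000 * (m : ℝ) ^ 4 * r / c₀) ≤ K ∧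
        (r : ℝ) *
          (16 ^ m * (((K * m + 4 * i).choose (t + 1 - 4 * i) : ℝ) / (b : ℝ) ^ (t + 1 - 4 * i)))
            * (4 * (10 : ℝ) ^ 8) * (m : ℝ) ^ 3 * ((m : ℝ) / (2 * i + 1)) ^ 6 ≤ c₀ ^ 3 := by
  -- constants
  set Ca : ℝ := Real.log (10000 * 33 ^ 4 / c₀) with hCa
  have hCa0 : 0 ≤ Ca := by
    refine Real.log_nonneg ?_
    rw [le_div_iff₀ hc₀]
    linarith
  obtain ⟨C4, hC4⟩ := exists_nat_ge (Real.sqrt (640 * 16 ^ 3 / c₀) * (Ca + 5))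
  set Cc : ℝ := 4 * 10 ^ 8 * 33 ^ 3 * 16 ^ 6 with hCc
  have hCc0 : 0 < Cc := by rw [hCc]; positivity
  set η : ℝ := c₀ ^ 3 / Cc with hη
  have hη0 : 0 < η := by positivity
  have hη1 : η ≤ 1 := by
    rw [hη, div_le_one hCc0]
    have : c₀ ^ 3 ≤ 1 := pow_le_one₀ hc₀.le hc₁
    refine this.trans ?_
    rw [hCc]
    norm_num
  obtain ⟨C3, hC3⟩ := exists_nat_ge (16 ^ 8 * (8 * Real.exp 1) * Real.exp 1 / η)
  have hC30 : 0 < C3 := by
    have h1 : (0 : ℝ) < 16 ^ 8 * (8 * Real.exp 1) * Real.exp 1 / η := by positivity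
    have h2 : (0 : ℝ) < (C3 : ℝ) := lt_of_lt_of_le h1 hC3
    exact_mod_cast h2
  set C5 : ℕ := 33 * C3 * (C4 + 1) with hC5
  have hC50 : 0 < C5 := by rw [hC5]; positivity
  have hC5r : (0 : ℝ) < (C5 : ℝ) := by exact_mod_cast hC50
  refine ⟨1 / (4 * Real.sqrt C5), by positivity, 4 * C5, ?_⟩
  intro n hn
  set i : ℕ := Nat.sqrt (n / C5) with hi
  have hi2 : 2 ≤ i := by
    rw [hi, Nat.le_sqrt]
    rw [Nat.le_div_iff_mul_le hC50]
    omega
  have hi1 : (2 : ℝ) ≤ (i : ℝ) := by exact_mod_cast hi2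
  have hilow : C5 * (i * i) ≤ n := by
    have h1 : i * i ≤ n / C5 := by
      rw [hi]
      exact Nat.sqrt_le (n / C5)
    calc C5 * (i * i) ≤ C5 * (n / C5) := Nat.mul_le_mul_left _ h1
      _ ≤ n := Nat.mul_div_le n C5
  have hihigh : (n : ℝ) ≤ (C5 : ℝ) * ((i : ℝ) + 1) ^ 2 := by
    have h1 : n / C5 < (i + 1) * (i + 1) := by
      rw [hi]
      exact Nat.lt_succ_sqrt (n / C5)
    have h2 : n < ((i + 1) * (i + 1)) * C5 := (Nat.div_lt_iff_lt_mul hC50).1 h1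
    have h3 : (n : ℝ) < (((i : ℝ) + 1) * ((i : ℝ) + 1)) * (C5 : ℝ) := by exact_mod_cast h2
    nlinarith
  set K : ℕ := C4 * i with hK
  refine ⟨32 * i + 1, C3 * (K + 1), 8 * i, i, K, ⟨16 * i, by ring⟩, by positivity, ?_, by omega,
    by omega, by omega, ?_⟩
  · refine le_trans ?_ hilow
    have h1 : 32 * i + 1 ≤ 33 * i := by omega
    have h2 : K + 1 ≤ (C4 + 1) * i := by
      rw [hK]
      nlinarith
    calc (32 * i + 1) * (C3 * (K + 1)) ≤ (33 * i) * (C3 * ((C4 + 1) * i)) := by gcongr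
      _ = C5 * (i * i) := by rw [hC5]; ring
  intro r hr hrle
  have hr0 : (0 : ℝ) < (r : ℝ) := by exact_mod_cast hr
  have hr1 : (1 : ℝ) ≤ (r : ℝ) := by exact_mod_cast hr
  -- log r ≤ i
  have hrexp : (r : ℝ) ≤ Real.exp i := by
    have h1 : 1 / (4 * Real.sqrt C5) * Real.sqrt n ≤ ((i : ℝ) + 1) / 4 := by
      have h2 : Real.sqrt n ≤ Real.sqrt C5 * ((i : ℝ) + 1) := by
        rw [← Real.sqrt_sq (by positivity : (0 : ℝ) ≤ (i : ℝ) + 1), ← Real.sqrt_mul hC5r.le]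
        exact Real.sqrt_le_sqrt hihigh
      have h3 : 0 < Real.sqrt C5 := Real.sqrt_pos.2 hC5r
      calc 1 / (4 * Real.sqrt C5) * Real.sqrt n
          ≤ 1 / (4 * Real.sqrt C5) * (Real.sqrt C5 * ((i : ℝ) + 1)) := by gcongr
        _ = ((i : ℝ) + 1) / 4 := by field_simp
    have h4 : ((i : ℝ) + 1) / 4 + 1 ≤ i := by linarith
    have h5 : (1 : ℝ) ≤ Real.exp (((i : ℝ) + 1) / 4) := Real.one_le_exp (by positivity)
    have h6 : (2 : ℝ) ≤ Real.exp 1 := by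
      have := Real.add_one_le_exp (1 : ℝ)
      linarith
    calc (r : ℝ) ≤ Real.exp (1 / (4 * Real.sqrt C5) * Real.sqrt n) + 1 := hrle
      _ ≤ Real.exp (((i : ℝ) + 1) / 4) + Real.exp (((i : ℝ) + 1) / 4) :=
          add_le_add (Real.exp_le_exp.2 h1) h5
      _ = 2 * Real.exp (((i : ℝ) + 1) / 4) := by ring
      _ ≤ Real.exp 1 * Real.exp (((i : ℝ) + 1) / 4) := by gcongr
      _ = Real.exp (((i : ℝ) + 1) / 4 + 1) := by rw [← Real.exp_add, add_comm]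
      _ ≤ Real.exp i := Real.exp_le_exp.2 h4
  -- the parameters as reals
  have hm33 : ((32 * i + 1 : ℕ) : ℝ) ≤ 33 * i := by push_cast; linarith
  have hm0 : (0 : ℝ) < ((32 * i + 1 : ℕ) : ℝ) := by positivity
  set m : ℝ := ((32 * i + 1 : ℕ) : ℝ) with hm
  have hL0 : (0 : ℝ) ≤ m / (2 * i + 1) := by positivity
  have hL : m / (2 * i + 1) ≤ 16 := by
    rw [div_le_iff₀ (by positivity), hm]
    push_cast
    linarith
  have hi0 : (0 : ℝ) < (i : ℝ) := by linarith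
  have hiexp : (i : ℝ) ≤ Real.exp i := by
    have := Real.add_one_le_exp (i : ℝ)
    linarith
  constructor
  · -- (A)
    have h1 : Real.log (10000 * m ^ 4 * r / c₀) ≤ Ca + 5 * i := by
      have h2 : 10000 * m ^ 4 * r / c₀ ≤ (10000 * 33 ^ 4 / c₀) * (Real.exp i) ^ 5 := by
        have h3 : m ^ 4 ≤ 33 ^ 4 * (Real.exp i) ^ 4 := by
          calc m ^ 4 ≤ (33 * i) ^ 4 := by gcongr
            _ = 33 ^ 4 * (i : ℝ) ^ 4 := by ring
            _ ≤ 33 ^ 4 * (Real.exp i) ^ 4 := by gcongr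
        calc 10000 * m ^ 4 * r / c₀ ≤ 10000 * (33 ^ 4 * (Real.exp i) ^ 4) * Real.exp i / c₀ := by
              gcongr
          _ = (10000 * 33 ^ 4 / c₀) * (Real.exp i) ^ 5 := by ring
      have h4 : 0 < 10000 * m ^ 4 * r / c₀ := by positivity
      calc Real.log (10000 * m ^ 4 * r / c₀)
          ≤ Real.log ((10000 * 33 ^ 4 / c₀) * (Real.exp i) ^ 5) := Real.log_le_log h4 h2
        _ = Ca + 5 * i := by
            rw [Real.log_mul (by positivity) (by positivity), Real.log_pow, Real.log_exp, hCa]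
            push_cast
            ring
    have h2 : Ca + 5 * i ≤ (Ca + 5) * i := by nlinarith
    have h3 : Real.sqrt (640 * (m / (2 * i + 1)) ^ 3 / c₀) ≤ Real.sqrt (640 * 16 ^ 3 / c₀) := by
      apply Real.sqrt_le_sqrt
      gcongr
    calc Real.sqrt (640 * (m / (2 * i + 1)) ^ 3 / c₀) * Real.log (10000 * m ^ 4 * r / c₀)
        ≤ Real.sqrt (640 * (m / (2 * i + 1)) ^ 3 / c₀) * ((Ca + 5) * i) :=
          mul_le_mul_of_nonneg_left (h1.trans h2) (Real.sqrt_nonneg _)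
      _ ≤ Real.sqrt (640 * 16 ^ 3 / c₀) * ((Ca + 5) * i) :=
          mul_le_mul_of_nonneg_right h3 (by positivity)
      _ = (Real.sqrt (640 * 16 ^ 3 / c₀) * (Ca + 5)) * i := by ring
      _ ≤ (C4 : ℝ) * i := by gcongr
      _ = (K : ℝ) := by rw [hK]; push_cast; ring
  · -- (B)
    set k : ℕ := 4 * i + 1 with hk
    have hk1 : 8 * i + 1 - 4 * i = k := by omega
    have hk0 : 0 < k := by omega
    have hkr : (0 : ℝ) < (k : ℝ) := by exact_mod_cast hk0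
    rw [hk1]
    set b : ℝ := ((C3 * (K + 1) : ℕ) : ℝ) with hb
    have hb0 : 0 < b := by rw [hb]; positivity
    have hK1 : (0 : ℝ) < (K : ℝ) + 1 := by positivity
    have hch : (((K * (32 * i + 1) + 4 * i).choose k : ℕ) : ℝ) ≤ (8 * Real.exp 1 * ((K : ℝ) + 1)) ^ k := by
      refine (choose_le_exp _ k hk0).trans ?_
      refine pow_le_pow_left₀ (by positivity) ?_ k
      have h1 : ((K * (32 * i + 1) + 4 * i : ℕ) : ℝ) / k ≤ 8 * ((K : ℝ) + 1) := by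
        rw [div_le_iff₀ hkr, hk]
        push_cast
        have hKn : (0 : ℝ) ≤ (K : ℝ) := Nat.cast_nonneg K
        nlinarith
      calc Real.exp 1 * (((K * (32 * i + 1) + 4 * i : ℕ) : ℝ) / k)
          ≤ Real.exp 1 * (8 * ((K : ℝ) + 1)) := by gcongr
        _ = 8 * Real.exp 1 * ((K : ℝ) + 1) := by ring
    have h16 : (16 : ℝ) ^ (32 * i + 1) ≤ (16 ^ 8) ^ k := by
      rw [← pow_mul]
      exact pow_le_pow_right₀ (by norm_num) (by omega)
    -- the ratio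
    have hratio : 16 ^ 8 * (8 * Real.exp 1 * ((K : ℝ) + 1)) / b ≤ η * (Real.exp 1)⁻¹ := by
      have h1 : b = (C3 : ℝ) * ((K : ℝ) + 1) := by rw [hb]; push_cast; ring
      rw [h1]
      have hC3r : (0 : ℝ) < (C3 : ℝ) := by exact_mod_cast hC30
      have h2 : 16 ^ 8 * (8 * Real.exp 1 * ((K : ℝ) + 1)) / ((C3 : ℝ) * ((K : ℝ) + 1))
          = 16 ^ 8 * (8 * Real.exp 1) / C3 := by
        field_simp
      rw [h2, div_le_iff₀ hC3r]
      have h3 : 16 ^ 8 * (8 * Real.exp 1) * Real.exp 1 / η ≤ (C3 : ℝ) := hC3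
      rw [div_le_iff₀ hη0] at h3
      have he : 0 < Real.exp 1 := Real.exp_pos 1
      calc 16 ^ 8 * (8 * Real.exp 1)
          = (16 ^ 8 * (8 * Real.exp 1) * Real.exp 1) * (Real.exp 1)⁻¹ := by field_simp
        _ ≤ ((C3 : ℝ) * η) * (Real.exp 1)⁻¹ := by gcongr
        _ = η * (Real.exp 1)⁻¹ * C3 := by ring
    have hmain : 16 ^ (32 * i + 1) * ((((K * (32 * i + 1) + 4 * i).choose k : ℕ) : ℝ) / b ^ k)
        ≤ η * ((Real.exp 1)⁻¹) ^ k := by
      calc 16 ^ (32 * i + 1) * ((((K * (32 * i + 1) + 4 * i).choose k : ℕ) : ℝ) / b ^ k)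
          ≤ (16 ^ 8) ^ k * ((8 * Real.exp 1 * ((K : ℝ) + 1)) ^ k / b ^ k) := by gcongr
        _ = (16 ^ 8 * (8 * Real.exp 1 * ((K : ℝ) + 1)) / b) ^ k := by
            rw [← mul_div_assoc, ← mul_pow, ← div_pow]
        _ ≤ (η * (Real.exp 1)⁻¹) ^ k := pow_le_pow_left₀ (by positivity) hratio k
        _ = η ^ k * ((Real.exp 1)⁻¹) ^ k := mul_pow _ _ _
        _ ≤ η * ((Real.exp 1)⁻¹) ^ k := by
            refine mul_le_mul_of_nonneg_right ?_ (by positivity)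
            calc η ^ k ≤ η ^ 1 := pow_le_pow_of_le_one hη0.le hη1 hk0
              _ = η := pow_one η
    have hexpk : ((Real.exp 1)⁻¹) ^ k * (Real.exp i) ^ 4 ≤ 1 := by
      have h1 : ((Real.exp 1)⁻¹) ^ k = Real.exp (-(k : ℝ)) := by
        rw [inv_pow, ← Real.exp_nat_mul, mul_one, Real.exp_neg]
      have h2 : (Real.exp (i : ℝ)) ^ 4 = Real.exp (4 * i) := by
        rw [← Real.exp_nat_mul]
        norm_num
      rw [h1, h2, ← Real.exp_add]
      refine Real.exp_le_one_iff.2 ?_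
      rw [hk]
      push_cast
      linarith
    have hm3 : m ^ 3 ≤ 33 ^ 3 * (Real.exp i) ^ 3 := by
      calc m ^ 3 ≤ (33 * i) ^ 3 := by gcongr
        _ = 33 ^ 3 * (i : ℝ) ^ 3 := by ring
        _ ≤ 33 ^ 3 * (Real.exp i) ^ 3 := by gcongr
    have hL6 : (m / (2 * i + 1)) ^ 6 ≤ 16 ^ 6 := by gcongr
    have hA0 : 0 ≤ 16 ^ (32 * i + 1) *
        ((((K * (32 * i + 1) + 4 * i).choose k : ℕ) : ℝ) / b ^ k) := by positivity
    calc (r : ℝ) * (16 ^ (32 * i + 1) *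
          ((((K * (32 * i + 1) + 4 * i).choose k : ℕ) : ℝ) / b ^ k))
          * (4 * (10 : ℝ) ^ 8) * m ^ 3 * (m / (2 * i + 1)) ^ 6
        ≤ Real.exp i * (η * ((Real.exp 1)⁻¹) ^ k) * (4 * (10 : ℝ) ^ 8)
          * (33 ^ 3 * (Real.exp i) ^ 3) * 16 ^ 6 := by gcongr
      _ = (Cc * η) * (((Real.exp 1)⁻¹) ^ k * (Real.exp i) ^ 4) := by rw [hCc]; ring
      _ ≤ (Cc * η) * 1 := by gcongr
      _ = c₀ ^ 3 := by rw [hη]; field_simp

end SDX
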